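import Pool.Agent.H592.TR.Main

/-!
# `∑_{n ≤ X} d(n) d(n+1) d(n+2)`: a lower bound with the proportion `25/27` of the conjectured main term

The conjectured main term is `(11/8) ∏_p (1 - 1/p)² (1 + 2/p) X log³ X` (`CC` is the constant). Write
`d(n+i) = 2 #{m_i ∣ n+i : m_i² < n+i} + O(1)`; two of the three smaller divisors, `m` and `m'`, are fixed and the third one, `b`,
with its cofactor `c`, is counted by incomplete Kloosterman sums to the modulus `lcm (m, m')`; this gives an
asymptotic formula as long as the product of the two is less than `X^(2/3 - ε)`. The points `(z₀, z₁, z₂)` of the cube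
`(0, 1/2)³` for which some `z_i + z_j < 2/3` have the proportion `25/27`.
-/

set_option autoImplicit false

open Finset Filter

namespace Pool.Agent.Results.MP_33509c_nt.TripleProportion

open Pool.Agent.H592.TR (CC)

/-- With `CC = (11/8) ∏_p (1 - 1/p)² (1 + 2/p) > 0`: for every `c < 25/27` and all large natural numbers `X` the sum of
`d(n) d(n+1) d(n+2)` over `1 ≤ n ≤ X` is at least `c CC X log³ X`. -/
theorem result : 0 < CC ∧ ∀ c : ℝ, c < 25 / 27 → ∀ᶠ X : ℕ in atTop, c * (CC * (X * Real.log X ^ 3)) ≤
    ∑ n ∈ Icc 1 X, (n.divisors.card : ℝ) * (n + 1).divisors.card * (n + 2).divisors.card :=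
  ⟨Pool.Agent.H947.TR.t5.1, Pool.Agent.H592.TR.t11_main⟩

end Pool.Agent.Results.MP_33509c_nt.TripleProportion
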